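import Pool.Agent.W458.MF.OStm
import Pool.Agent.W366.MF.WInj

/-!
# Project MF, part ODENS: proportions of the patterns in cosets of the commutator subgroup
-/

set_option autoImplicit false

open Polynomial

namespace Pool.Agent.W397.MF

open Pool.Agent.W521.Frob Pool.Agent.W458.MF

theorem coset_nonempty (g l : ℕ) (κ : (ZMod l)ˣ) : (cosetOf g l κ).Nonempty :=
  ⟨diagElt g l κ * (1 : (Matrix (Fin g ⊕ Fin g) (Fin g ⊕ Fin g) (ZMod l))ˣ).val,
    1, one_mem _, rfl⟩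

theorem oprop_ge (hWM : St_WM) (hORB : St_OORB) (hW : St_WINJ) {g l r : ℕ} {κ : (ZMod l)ˣ}
    (hg : 0 < g) (hl : l.Prime) (hl2 : l ≠ 2) (hr : ¬ l ∣ r) {c : ℝ} (hc : 0 < c)
    {S E : Set (ZMod l)[X]} (hSE : S ⊆ E)
    (hS : ∀ f ∈ S, f.Monic ∧ f.natDegree = g ∧ Squarefree (weilm ((r : ZMod l) ^ 2) f) ∧
      ∃ B ∈ cosetOf g l κ, ((r : ZMod l) • B).charpoly = weilm ((r : ZMod l) ^ 2) f)
    (hcard : c * (l : ℝ) ^ g ≤ (S.ncard : ℝ)) : c / 2 ^ g ≤ oproportion g l r κ E := by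
  classical
  have : Fact l.Prime := ⟨hl⟩
  have : NeZero l := ⟨hl.ne_zero⟩
  obtain ⟨-, -, -, hWM4, hWM5⟩ := hWM l hl ((r : ZMod l) ^ 2)
  have hlp : (0 : ℝ) < l := by exact_mod_cast hl.pos
  have hSfin : S.Finite := by
    apply Set.finite_of_ncard_pos
    have : (0 : ℝ) < (S.ncard : ℝ) := lt_of_lt_of_le (by positivity) hcard
    exact_mod_cast this
  -- lifts
  have hlift : ∀ f ∈ S, ∃ h : ℤ[X], h.map (Int.castRingHom (ZMod l)) = f ∧ h.natDegree = g ∧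
      h.Monic := by
    intro f hf
    obtain ⟨hm, hd, _⟩ := hS f hf
    obtain ⟨h, ha, hb, hc⟩ := hWM5 f hm
    exact ⟨h, hc, by rw [hb, hd], ha⟩
  choose! H hH1 hH2 hH3 using hlift
  have hweil : ∀ h : ℤ[X], h.Monic → (weil (r ^ 2) h).map (Int.castRingHom (ZMod l)) =
      weilm ((r : ZMod l) ^ 2) (h.map (Int.castRingHom (ZMod l))) := by
    intro h hh
    rw [hWM4 (r ^ 2) h hh, Nat.cast_pow]
  set Sm := cosetOf g l κ with hSm
  have hfin : ∀ s : Set (Matrix (Fin g ⊕ Fin g) (Fin g ⊕ Fin g) (ZMod l)), s.Finite :=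
    fun s => Set.toFinite s
  set P : Set (Matrix (Fin g ⊕ Fin g) (Fin g ⊕ Fin g) (ZMod l)) :=
    {B | B ∈ Sm ∧ ∃ h : ℤ[X], h.Monic ∧ h.natDegree = g ∧
      h.map (Int.castRingHom (ZMod l)) ∈ E ∧ ((r : ZMod l) • B).charpoly =
          (weil (r ^ 2) h).map (Int.castRingHom (ZMod l))} with hP
  set Af : (ZMod l)[X] → Set (Matrix (Fin g ⊕ Fin g) (Fin g ⊕ Fin g) (ZMod l)) := fun f =>
    {B | B ∈ Sm ∧ ((r : ZMod l) • B).charpoly = weilm ((r : ZMod l) ^ 2) f} with hAf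
  have hA1 : ∀ f ∈ S, Sm.ncard ≤ (2 * l) ^ g * (Af f).ncard := by
    intro f hf
    obtain ⟨hm, hd, hsq, hB⟩ := hS f hf
    exact hORB g l r κ f hg hl hl2 hr hm hd hsq hB
  have hA2 : ∑ f ∈ hSfin.toFinset, (Af f).ncard ≤ P.ncard := by
    have e : ∀ f, (Af f).ncard = (hfin (Af f)).toFinset.card := fun f =>
      Set.ncard_eq_toFinset_card _ _
    rw [Set.ncard_eq_toFinset_card P (hfin P), Finset.sum_congr rfl (fun f _ => e f),
      ← Finset.card_biUnion]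
    · refine Finset.card_le_card ?_
      intro A hA
      rw [Finset.mem_biUnion] at hA
      obtain ⟨f, hf, hA⟩ := hA
      rw [Set.Finite.mem_toFinset] at hf hA ⊢
      refine ⟨hA.1, H f, hH3 f hf, hH2 f hf, by rw [hH1 f hf]; exact hSE hf, ?_⟩
      rw [hweil _ (hH3 f hf), hH1 f hf]
      exact hA.2
    · intro f hf f' hf' hne
      simp only [Function.onFun, Finset.disjoint_left, Set.Finite.mem_toFinset]
      intro A hA hA'
      have hfE : f ∈ S := hSfin.mem_toFinset.1 hf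
      have hfE' : f' ∈ S := hSfin.mem_toFinset.1 hf'
      apply hne
      have h3 := hW l (r ^ 2) (H f) (H f') (hH3 f hfE) (hH3 f' hfE')
        (by rw [hH2 f hfE, hH2 f' hfE']) (by
          rw [hweil _ (hH3 f hfE), hweil _ (hH3 f' hfE'), hH1 f hfE, hH1 f' hfE', ← hA.2, ← hA'.2])
      rwa [hH1 f hfE, hH1 f' hfE'] at h3
  have hA3 : S.ncard * Sm.ncard ≤ (2 * l) ^ g * P.ncard := by
    calc S.ncard * Sm.ncard = ∑ _f ∈ hSfin.toFinset, Sm.ncard := by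
          rw [Finset.sum_const, smul_eq_mul, ← Set.ncard_eq_toFinset_card S hSfin]
      _ ≤ ∑ f ∈ hSfin.toFinset, (2 * l) ^ g * (Af f).ncard :=
          Finset.sum_le_sum fun f hf => hA1 f (hSfin.mem_toFinset.1 hf)
      _ = (2 * l) ^ g * ∑ f ∈ hSfin.toFinset, (Af f).ncard := by rw [Finset.mul_sum]
      _ ≤ (2 * l) ^ g * P.ncard := Nat.mul_le_mul_left _ hA2
  have hSp : 0 < Sm.ncard := (Set.ncard_pos (hfin Sm)).2 (coset_nonempty g l κ)
  have hSpR : (0 : ℝ) < (Sm.ncard : ℝ) := by exact_mod_cast hSp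
  have hA4 : (S.ncard : ℝ) * (Sm.ncard : ℝ) ≤ (2 * (l : ℝ)) ^ g * (P.ncard : ℝ) := by
    exact_mod_cast hA3
  unfold oproportion
  change c / 2 ^ g ≤ (P.ncard : ℝ) / (Sm.ncard : ℝ)
  rw [div_le_div_iff₀ (by positivity) hSpR]
  have h5 : c * (l : ℝ) ^ g * (Sm.ncard : ℝ) ≤ (2 * (l : ℝ)) ^ g * (P.ncard : ℝ) :=
    le_trans (by gcongr) hA4
  rw [mul_pow] at h5
  have h6 : (l : ℝ) ^ g * (c * (Sm.ncard : ℝ)) ≤ (l : ℝ) ^ g * ((P.ncard : ℝ) * 2 ^ g) := by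
    linarith
  exact le_of_mul_le_mul_left h6 (by positivity)

theorem halved_good (hR1 : St_REAL1) {g l r : ℕ} {κ : (ZMod l)ˣ} (hg : 2 ≤ g) (hl : l.Prime)
    (hl5 : 5 ≤ l) (hr : ¬ l ∣ r) (f : (ZMod l)[X]) (hf : f ∈ halved g l r κ) :
    f.Monic ∧ f.natDegree = g ∧ Squarefree (weilm ((r : ZMod l) ^ 2) f) ∧
      ∃ B ∈ cosetOf g l κ, ((r : ZMod l) • B).charpoly = weilm ((r : ZMod l) ^ 2) f := by
  have : Fact l.Prime := ⟨hl⟩
  obtain ⟨hm, hd, hsq, F, hFm, hFd, hF0, hFs, hF⟩ := hf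
  refine ⟨hm, hd, hsq, ?_⟩
  obtain ⟨B, hB, h⟩ := hR1 g l r κ F hg hl hl5 hr hFm hFd hF0 hFs
  refine ⟨B, hB, ?_⟩
  rw [← hF] at h
  exact mul_left_cancel₀ (C_ne_zero.mpr hF0) h

theorem weilm_prod (hWM : St_WM) {l : ℕ} (hl : l.Prime) (γ : ZMod l) (T : Finset (ZMod l)) :
    weilm γ (∏ t ∈ T, (X - C t)) = ∏ t ∈ T, (X ^ 2 - C t * X + C γ) := by
  classical
  have : Fact l.Prime := ⟨hl⟩
  obtain ⟨h1, h2, h3, -, -⟩ := hWM l hl γ
  induction T using Finset.induction_on with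
  | empty =>
    rw [Finset.prod_empty, Finset.prod_empty]
    obtain ⟨h4, h5⟩ := h3 1 monic_one
    rw [natDegree_one, mul_zero] at h5
    exact (Polynomial.Monic.natDegree_eq_zero h4).mp h5
  | insert a s ha ih =>
    rw [Finset.prod_insert ha, Finset.prod_insert ha, h1 _ _ (monic_X_sub_C a)
      (monic_prod_of_monic _ _ fun t _ => monic_X_sub_C t), h2, ih]

theorem quad_coprime {K : Type*} [Field K] {γ t t' : K} (hγ : γ ≠ 0) (ht : t ≠ t') :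
    IsCoprime (X ^ 2 - C t * X + C γ) (X ^ 2 - C t' * X + C γ) := by
  have h1 : C γ⁻¹ * C γ = (1 : K[X]) := by
    rw [← C_mul, inv_mul_cancel₀ hγ, C_1]
  have h2 : C (t' - t)⁻¹ * (C t' - C t) = (1 : K[X]) := by
    rw [← C_sub, ← C_mul, inv_mul_cancel₀ (sub_ne_zero.mpr (Ne.symm ht)), C_1]
  refine ⟨C γ⁻¹ * (1 - (X - C t) * C (t' - t)⁻¹), C γ⁻¹ * ((X - C t) * C (t' - t)⁻¹), ?_⟩
  linear_combination h1 - C γ⁻¹ * (X - C t) * X * h2

theorem quad_sep {K : Type*} [Field K] {γ t : K} (hd : t ^ 2 - 4 * γ ≠ 0) :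
    (X ^ 2 - C t * X + C γ : K[X]).Separable := by
  have h1 : C (t ^ 2 - 4 * γ)⁻¹ * (C t ^ 2 - 4 * C γ) = (1 : K[X]) := by
    have e : (C t ^ 2 - 4 * C γ : K[X]) = C (t ^ 2 - 4 * γ) := by
      rw [C_sub, C_pow, C_mul, map_ofNat]
    rw [e, ← C_mul, inv_mul_cancel₀ hd, C_1]
  rw [separable_def]
  have hder : derivative (X ^ 2 - C t * X + C γ : K[X]) = 2 * X - C t := by
    simp
    norm_num
  rw [hder]
  refine ⟨-(4 * C (t ^ 2 - 4 * γ)⁻¹), C (t ^ 2 - 4 * γ)⁻¹ * (2 * X - C t), ?_⟩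
  linear_combination h1

theorem natCast_ne {l r : ℕ} (hl : l.Prime) (hr : ¬ l ∣ r) : (r : ZMod l) ≠ 0 := by
  rw [Ne, ZMod.natCast_eq_zero_iff]
  exact hr

theorem nonsq {K : Type*} [Field K] {a b : K} (ha : IsSquare a) (ha0 : a ≠ 0)
    (hb : ¬ IsSquare b) : ¬ IsSquare (a * b) := by
  rintro ⟨y, hy⟩
  obtain ⟨x, hx⟩ := ha
  apply hb
  refine ⟨y / x, ?_⟩
  have hx0 : x ≠ 0 := by
    rintro rfl
    apply ha0
    rw [hx, mul_zero]
  rw [hx] at hy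
  field_simp
  linear_combination hy

theorem oflip_good (hWM : St_WM) (hR2 : St_REAL2) {g N l r : ℕ} {κ : (ZMod l)ˣ} (hg : 3 ≤ g)
    (hl : l.Prime) (hl5 : 5 ≤ l) (hr : ¬ l ∣ r) (f : (ZMod l)[X]) (hf : f ∈ oflipSet g N l r κ) :
    f ∈ flip2Set g N l (r ^ 2) ∧
    f.Monic ∧ f.natDegree = g ∧ Squarefree (weilm ((r : ZMod l) ^ 2) f) ∧
      ∃ B ∈ cosetOf g l κ, ((r : ZMod l) • B).charpoly = weilm ((r : ZMod l) ^ 2) f := by
  classical
  have : Fact l.Prime := ⟨hl⟩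
  obtain ⟨T, t₀, t₁, hT, h0, h1, h01, rfl, hs0, hs1, hluc, hrest, hsq⟩ := hf
  have hr0 := natCast_ne hl hr
  have key : ∀ t : ZMod l, (IsSquare (t + 2 * (r : ZMod l)) ∧ t + 2 * (r : ZMod l) ≠ 0 ∧
      ¬ IsSquare (t - 2 * (r : ZMod l))) → ¬ IsSquare (t ^ 2 - 4 * (r : ZMod l) ^ 2) := by
    rintro t ⟨ha, hb, hc⟩
    have e : t ^ 2 - 4 * (r : ZMod l) ^ 2 = (t + 2 * (r : ZMod l)) * (t - 2 * (r : ZMod l)) := by
      ring
    rw [e]
    exact nonsq ha hb hc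
  have hcast : (((r ^ 2 : ℕ)) : ZMod l) = (r : ZMod l) ^ 2 := Nat.cast_pow r 2
  have hrest' : ∀ t ∈ T, t ≠ t₀ → t ≠ t₁ →
      IsSquare (t ^ 2 - 4 * (r : ZMod l) ^ 2) ∧ t ^ 2 - 4 * (r : ZMod l) ^ 2 ≠ 0 := by
    intro t ht hne0 hne1
    exact hrest t (Finset.mem_erase.mpr ⟨hne1, Finset.mem_erase.mpr ⟨hne0, ht⟩⟩)
  have hdisc : ∀ t ∈ T, t ^ 2 - 4 * (r : ZMod l) ^ 2 ≠ 0 := by
    intro t ht
    by_cases hne0 : t = t₀
    · intro h
      rw [hne0] at h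
      apply key t₀ hs0
      rw [h]
      exact IsSquare.zero
    · by_cases hne1 : t = t₁
      · intro h
        rw [hne1] at h
        apply key t₁ hs1
        rw [h]
        exact IsSquare.zero
      · exact (hrest' t ht hne0 hne1).2
  refine ⟨?_, ?_, ?_, ?_, ?_⟩
  · refine ⟨T, t₀, t₁, hT, h0, h1, h01, rfl, ?_, ?_, hluc, ?_⟩
    · rw [hcast]; exact key t₀ hs0
    · rw [hcast]; exact key t₁ hs1
    · rw [hcast]; exact hrest'
  · exact monic_prod_of_monic _ _ fun t _ => monic_X_sub_C t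
  · rw [natDegree_prod_of_monic _ _ fun t _ => monic_X_sub_C t]
    simp [hT]
  · rw [weilm_prod hWM hl]
    apply Separable.squarefree
    apply separable_prod'
    · intro t _ t' _ hne
      exact quad_coprime (pow_ne_zero 2 hr0) hne
    · intro t ht
      exact quad_sep (hdisc t ht)
  · rw [weilm_prod hWM hl]
    exact hR2 g l r κ T t₀ t₁ hg hl hl5 hr hT h0 h1 h01 hs0 hs1 hrest hsq

theorem odens (h1 : St_WM) (h2 : St_OORB) (h3 : St_REAL1) (h4 : St_REAL2) (h5 : St_OCNTS)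
    (h6 : St_OCNTE) (h7 : St_OCNTI) (h8 : St_OCNTF) : St_ODENS := by
  intro g N hg hN
  have hW : St_WINJ := Pool.Agent.W366.MF.winj
  obtain ⟨c₁, hc₁, l₁, H1⟩ := h5 g hg
  obtain ⟨c₂, hc₂, l₂, H2⟩ := h6 g N hg hN
  obtain ⟨c₃, hc₃, l₃, H3⟩ := h7 g (by omega)
  obtain ⟨c₄, hc₄, l₄, H4⟩ := h8 g hg
  have h2g : (0 : ℝ) < 2 ^ g := by positivity
  refine ⟨min (min c₁ c₂) (min c₃ c₄) / 2 ^ g,
    div_pos (lt_min (lt_min hc₁ hc₂) (lt_min hc₃ hc₄)) h2g,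
    max (max (max l₁ l₂) (max l₃ l₄)) 5, ?_⟩
  intro l hl hll r hr κ
  have hll5 : 5 ≤ l := (le_max_right _ _).trans hll
  have hll' := (le_max_left _ _).trans hll
  have hla : l₁ ≤ l := (le_max_left _ _).trans ((le_max_left _ _).trans hll')
  have hlb : l₂ ≤ l := (le_max_right _ _).trans ((le_max_left _ _).trans hll')
  have hlc : l₃ ≤ l := (le_max_left _ _).trans ((le_max_right _ _).trans hll')
  have hld : l₄ ≤ l := (le_max_right _ _).trans ((le_max_right _ _).trans hll')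
  have hl2 : l ≠ 2 := by omega
  have hg0 : 0 < g := by omega
  have m1 : min (min c₁ c₂) (min c₃ c₄) ≤ c₁ := (min_le_left _ _).trans (min_le_left _ _)
  have m2 : min (min c₁ c₂) (min c₃ c₄) ≤ c₂ := (min_le_left _ _).trans (min_le_right _ _)
  have m3 : min (min c₁ c₂) (min c₃ c₄) ≤ c₃ := (min_le_right _ _).trans (min_le_left _ _)
  have m4 : min (min c₁ c₂) (min c₃ c₄) ≤ c₄ := (min_le_right _ _).trans (min_le_right _ _)
  refine ⟨?_, ?_, ?_, ?_⟩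
  · refine (div_le_div_of_nonneg_right m2 h2g.le).trans ?_
    exact oprop_ge h1 h2 hW hg0 hl hl2 hr hc₂
      (fun f hf => (oflip_good h1 h4 hg hl hll5 hr f hf).1)
      (fun f hf => (oflip_good h1 h4 hg hl hll5 hr f hf).2) (H2 l hl hlb r hr κ)
  · refine (div_le_div_of_nonneg_right m1 h2g.le).trans ?_
    exact oprop_ge h1 h2 hW hg0 hl hl2 hr hc₁ Set.inter_subset_left
      (fun f hf => halved_good h3 (by omega) hl hll5 hr f hf.2) (H1 l hl hla r hr κ)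
  · refine (div_le_div_of_nonneg_right m3 h2g.le).trans ?_
    exact oprop_ge h1 h2 hW hg0 hl hl2 hr hc₃ Set.inter_subset_left
      (fun f hf => halved_good h3 (by omega) hl hll5 hr f hf.2) (H3 l hl hlc r hr κ)
  · refine (div_le_div_of_nonneg_right m4 h2g.le).trans ?_
    exact oprop_ge h1 h2 hW hg0 hl hl2 hr hc₄ Set.inter_subset_left
      (fun f hf => halved_good h3 (by omega) hl hll5 hr f hf.2) (H4 l hl hld r hr κ)

end Pool.Agent.W397.MF
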