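import Mathlib

/-!
# A simple eigenvalue of an endomorphism: the projector on the eigenvector is a polynomial
-/

open Polynomial

namespace Pool.Agent.W397.MF

variable {K : Type*} {V : Type*} [Field K] [AddCommGroup V] [Module K V] [FiniteDimensional K V]

theorem exists_proj (F : Module.End K V) (lam : K) :
    ∃ P : K[X], (∀ x, aeval F P x ∈ Module.End.maxGenEigenspace F lam) ∧
      ∀ v, F v = lam • v → aeval F P v = v := by
  have hm : minpoly K F ≠ 0 := minpoly.ne_zero (Algebra.IsIntegral.isIntegral F)
  obtain ⟨s, hs, hnd⟩ := Polynomial.exists_eq_pow_rootMultiplicity_mul_and_not_dvd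
    (minpoly K F) hm lam
  set r := (minpoly K F).rootMultiplicity lam with hr
  have hcop : IsCoprime ((X - C lam) ^ (r + 1)) s :=
    ((Polynomial.irreducible_X_sub_C lam).coprime_iff_not_dvd.mpr hnd).pow_left
  obtain ⟨u, w, huw⟩ := hcop
  have hX : aeval F (X - C lam : K[X]) = F - algebraMap K (Module.End K V) lam := by
    simp
  refine ⟨w * s, ?_, ?_⟩
  · intro x
    rw [Module.End.mem_maxGenEigenspace]
    refine ⟨r, ?_⟩
    have h1 : (X - C lam) ^ r * (w * s) = w * minpoly K F := by
      conv_rhs => rw [hs]
      ring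
    have h2 : aeval F ((X - C lam) ^ r * (w * s)) = 0 := by
      rw [h1, map_mul, minpoly.aeval, mul_zero]
    rw [map_mul, map_pow, hX] at h2
    have h3 := LinearMap.congr_fun h2 x
    rw [Module.End.mul_apply, LinearMap.zero_apply] at h3
    rw [← h3]
    rfl
  · intro v hv
    have h1 : w * s = 1 - u * (X - C lam) ^ (r + 1) := by
      rw [← huw]; ring
    have h2 : (aeval F ((X - C lam : K[X]) ^ (r + 1))) v = 0 := by
      rw [pow_succ, map_mul, Module.End.mul_apply, hX]
      have : (F - algebraMap K (Module.End K V) lam) v = 0 := by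
        rw [LinearMap.sub_apply, hv, Module.algebraMap_end_apply, sub_self]
      rw [this, map_zero]
    rw [h1, map_sub, map_one, map_mul, LinearMap.sub_apply, Module.End.mul_apply, h2, map_zero,
      sub_zero]
    rfl

theorem exists_phi (F : Module.End K V) (lam : K) (v : V) (hv : F v = lam • v) (hv0 : v ≠ 0)
    (hg : ∀ x, x ∈ Module.End.maxGenEigenspace F lam → ∃ c : K, x = c • v) :
    ∃ (P : K[X]) (φ : V →ₗ[K] K), (∀ x, aeval F P x = φ x • v) ∧ φ v = 1 ∧
      ∀ x, φ (F x) = lam * φ x := by
  obtain ⟨P, hP, hPv⟩ := exists_proj F lam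
  have hmem : ∀ x, aeval F P x ∈ Submodule.span K {v} := fun x => by
    obtain ⟨c, hc⟩ := hg _ (hP x)
    rw [hc]
    exact Submodule.smul_mem _ _ (Submodule.mem_span_singleton_self v)
  let φ : V →ₗ[K] K := (LinearEquiv.toSpanNonzeroSingleton K V v hv0).symm.toLinearMap ∘ₗ
    LinearMap.codRestrict (Submodule.span K {v}) (aeval F P) hmem
  have hφ : ∀ x, aeval F P x = φ x • v := by
    intro x
    have h1 : (LinearEquiv.toSpanNonzeroSingleton K V v hv0) (φ x) =
        LinearMap.codRestrict (Submodule.span K {v}) (aeval F P) hmem x := by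
      simp [φ]
    have h2 := congrArg Subtype.val h1
    rw [LinearEquiv.toSpanNonzeroSingleton_apply] at h2
    exact h2.symm
  have hinj : ∀ a b : K, a • v = b • v → a = b := fun a b h => by
    have : (a - b) • v = 0 := by rw [sub_smul, h, sub_self]
    rcases smul_eq_zero.mp this with h | h
    · exact sub_eq_zero.mp h
    · exact absurd h hv0
  refine ⟨P, φ, hφ, ?_, ?_⟩
  · apply hinj
    rw [← hφ, hPv v hv, one_smul]
  · intro x
    apply hinj
    rw [← hφ]
    have hcomm : aeval F P (F x) = F (aeval F P x) := by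
      have h := Polynomial.aeval_mul (R := K) (x := F) (p := P) (q := X)
      have h' := Polynomial.aeval_mul (R := K) (x := F) (p := X) (q := P)
      rw [mul_comm P X] at h
      rw [h] at h'
      have h'' := LinearMap.congr_fun h' x
      simpa using h''
    rw [hcomm, hφ, map_smul, hv, smul_smul, mul_comm]

end Pool.Agent.W397.MF
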