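import Pool.Agent.W458.MF.Stm2
import Pool.Agent.H914R2.KCorr
import Pool.Agent.H914R2.GFrob
import Pool.Agent.W397.MF.LA

/-!
# The external product of two eigenvectors is algebraic
-/

open CategoryTheory AlgebraicGeometry
open Polynomial (aeval)

universe u v w

namespace Pool.Agent.W397.MF

open Pool.Agent.H914 Pool.Agent.W534 Pool.Agent.W521.Frob VarClass Obj WeilCohomology
  Pool.Agent.H281R3.HT Pool.Agent.W458.MF

variable {k : Type u} [Field k] {𝒱 : VarClass k} {ops : CycleOps 𝒱}
  {W : WeilCohomology.{u, v} ops} {X Y : 𝒱.Obj}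

/-- The operator induced by the transpose of an external product. -/
lemma corr_swap_ext (a : W.H X) (b : W.H Y) :
    W.corr (W.map (swap Y X) (ext W a b)) = (W.tr Y ∘ₗ LinearMap.mulLeft W.K b).smulRight a := by
  refine gr_induction (W.isInternal X) (p := fun a => W.corr (W.map (swap Y X) (ext W a b)) =
    (W.tr Y ∘ₗ LinearMap.mulLeft W.K b).smulRight a) ?_ ?_ a
  · intro i a ha
    refine gr_induction (W.isInternal Y) (p := fun b => W.corr (W.map (swap Y X) (ext W a b)) =
      (W.tr Y ∘ₗ LinearMap.mulLeft W.K b).smulRight a) ?_ ?_ b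
    · intro j b hb
      exact corr_swap_tmul ha hb
    · intro b b' hb hb'
      have h1 : ext W a (b + b') = ext W a b + ext W a b' := by
        simp only [ext, map_add, mul_add]
      rw [h1, map_add, W.corr_add, hb, hb']
      apply LinearMap.ext
      intro x
      simp only [LinearMap.add_apply, LinearMap.smulRight_apply, LinearMap.comp_apply,
        LinearMap.mulLeft_apply, add_mul, map_add, add_smul]
  · intro a a' ha ha'
    have h1 : ext W (a + a') b = ext W a b + ext W a' b := by
      simp only [ext, map_add, add_mul]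
    rw [h1, map_add, W.corr_add, ha, ha']
    apply LinearMap.ext
    intro x
    simp only [LinearMap.add_apply, LinearMap.smulRight_apply, smul_add]

lemma spanCycles_le_algSpan (q : ℤ) : spanCycles W X q ≤ algSpan W X := by
  refine Submodule.span_le.2 ?_
  rintro c ⟨p, _, z, hz, rfl⟩
  exact Submodule.subset_span (Set.mem_iUnion.2 ⟨p, z, hz, rfl⟩)

lemma kop_map (φ : X ⟶ X) : (W.map φ).toLinearMap ∈ KOp W X X 0 := by
  have e1 : Obj.lift φ (𝟙 X) ≫ snd X X = 𝟙 X := Obj.lift_snd _ _
  have e2 : Obj.lift φ (𝟙 X) ≫ fst X X = φ := Obj.lift_fst _ _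
  have h : (W.map φ).toLinearMap =
      W.corr (W.cl _ (ops.push (Obj.lift φ (𝟙 X)) X.V.fundCycle)) := by
    apply LinearMap.ext
    intro a
    rw [W.cl_push, W.cl_fund, corr_apply, ← W.push_mul, ← W.push_comp, ← W.map_comp, e1, e2,
      W.push_id, one_mul]
    rfl
  rw [h]
  refine KOp.gen (p := X.dim) (by simp) (ops.push_mem _ X.V.fundCycle_mem ?_)
  rw [dim_prod]; omega

lemma kop_aeval {F : Module.End W.K (W.H X)} (hF : F ∈ KOp W X X 0) (P : Polynomial W.K) :
    aeval F P ∈ KOp W X X 0 := by
  have hpow : ∀ n : ℕ, F ^ n ∈ KOp W X X 0 := by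
    intro n
    induction n with
    | zero => exact KOp.id X
    | succ n ih =>
      rw [pow_succ]
      exact KOp.cast (KOp.comp ih hF) (by norm_num)
  rw [Polynomial.aeval_eq_sum_range]
  exact Submodule.sum_mem _ fun i _ => Submodule.smul_mem _ _ (hpow i)

lemma map_swap_algSpan {c : W.H (X.prod Y)} (hc : c ∈ algSpan W (X.prod Y)) :
    W.map (swap Y X) c ∈ algSpan W (Y.prod X) := by
  induction hc using Submodule.span_induction with
  | mem x hx =>
    obtain ⟨j, z, hz, rfl⟩ := Set.mem_iUnion.1 hx
    refine Submodule.subset_span (Set.mem_iUnion.2 ⟨j, ops.pull (swap Y X) z, ?_, ?_⟩)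
    · exact ops.pull_mem _ hz
    · exact W.cl_pull _ _
  | zero => rw [map_zero]; exact Submodule.zero_mem _
  | add x y _ _ hx hy => rw [map_add]; exact Submodule.add_mem _ hx hy
  | smul a x _ hx => rw [map_smul]; exact Submodule.smul_mem _ _ hx

lemma map_swap_swap (c : W.H (X.prod Y)) : W.map (swap X Y) (W.map (swap Y X) c) = c := by
  refine W.kunneth_induction (p := fun c => W.map (swap X Y) (W.map (swap Y X) c) = c) ?_ ?_ c
  · intro a b ha hb
    rw [map_add, map_add, ha, hb]
  · intro i j a _ b _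
    simp only [map_mul, ← W.map_comp, swap_fst, swap_snd]

/-- Poincare duality. -/
lemma exists_dual (φ : W.H X →ₗ[W.K] W.K) : ∃ y : W.H X, ∀ x, φ x = W.tr X (y * x) := by
  let B : W.H X →ₗ[W.K] Module.Dual W.K (W.H X) :=
    LinearMap.mk₂ W.K (fun y x => W.tr X (y * x))
      (fun a b c => by rw [add_mul, map_add]) (fun a b c => by rw [smul_mul_assoc, map_smul])
      (fun a b c => by rw [mul_add, map_add]) (fun a b c => by rw [mul_smul_comm, map_smul])
  have hinj : Function.Injective B := by
    rw [injective_iff_map_eq_zero]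
    intro y hy
    apply W.nondeg
    intro x
    exact LinearMap.congr_fun hy x
  have hsurj : Function.Surjective B :=
    (LinearMap.injective_iff_surjective_of_finrank_eq_finrank
      (Subspace.dual_finrank_eq (K := W.K) (V := W.H X)).symm).1 hinj
  obtain ⟨y, hy⟩ := hsurj φ
  exact ⟨y, fun x => by rw [← hy]; rfl⟩

theorem pair : Pool.Agent.W458.MF.St_PAIR.{u, v} := by
  intro k _ 𝒱 ops W p Φ X a lam lam' v v' _ hll hv hv' hg hg'
  by_cases hv0 : v = 0
  · rw [hv0]
    simp only [ext, map_zero, zero_mul]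
    exact Submodule.zero_mem _
  obtain ⟨P, φ, hP, hφv, hφF⟩ := exists_phi (frob Φ X a) lam v hv hv0 hg
  obtain ⟨y, hy⟩ := exists_dual φ
  have hFy : frob Φ X a y = lam' • y := by
    apply W.tr_ext
    intro c
    obtain ⟨z, rfl⟩ := map_iter_surjective Φ a c
    rw [frob_apply, ← map_mul, tr_iter, ← hy]
    rw [smul_mul_assoc, map_smul, ← hy, ← frob_apply, hφF, smul_eq_mul, ← mul_assoc,
      mul_comm lam' lam, hll, card]
    push_cast
    rw [← pow_mul]
  obtain ⟨c, hc⟩ := hg' y hFy
  have hc0 : c ≠ 0 := by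
    rintro rfl
    rw [zero_smul] at hc
    have := hy v
    rw [hφv, hc, zero_mul, map_zero] at this
    exact one_ne_zero this
  have hPm : aeval (frob Φ X a) P ∈ KOp W X X 0 := kop_aeval (kop_map _) P
  obtain ⟨γ, hγ, hγP⟩ := mem_KOp_iff.1 hPm
  have h1 : W.corr (W.map (swap X X) (ext W v y)) = W.corr γ := by
    rw [corr_swap_ext, hγP]
    apply LinearMap.ext
    intro x
    rw [LinearMap.smulRight_apply, LinearMap.comp_apply, LinearMap.mulLeft_apply, ← hy, hP]
  have h2 : W.map (swap X X) (ext W v y) = γ := by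
    rw [← sub_eq_zero]
    apply corr_inj
    apply LinearMap.ext
    intro x
    have := LinearMap.congr_fun h1 x
    rw [corr_apply, sub_mul, map_sub, ← corr_apply, ← corr_apply, this, sub_self,
      LinearMap.zero_apply]
  have h3 : ext W v y ∈ algSpan W (X.prod X) := by
    rw [← map_swap_swap (ext W v y), h2]
    exact map_swap_algSpan (spanCycles_le_algSpan _ hγ)
  have h4 : ext W v y = c • ext W v v' := by
    rw [hc]
    simp only [ext, map_smul, mul_smul_comm]
  rw [h4] at h3
  have h5 := Submodule.smul_mem _ c⁻¹ h3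
  rwa [smul_smul, inv_mul_cancel₀ hc0, one_smul] at h5

end Pool.Agent.W397.MF
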