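import Pool.Agent.W957.MF.Stm

/-!
# Project MF: the tip case
-/

set_option autoImplicit false

open Finset

namespace Pool.Agent.W397.MF

open Pool.Agent.W957.MF

/-! ### symmetries -/

lemma sg_sg (s s' : Bool) (x : ℤ) : sg s (sg s' x) = sg (s == s') x := by
  cases s <;> cases s' <;> simp [sg]

lemma symm_symm (a' s1' s2' a s1 s2 : Bool) (z : Conf) :
    ∃ a'' s1'' s2'', symm a' s1' s2' (symm a s1 s2 z) = symm a'' s1'' s2'' z := by
  cases a'
  · refine ⟨!a, s1' == s2, s2' == s1, ?_⟩
    funext b n
    cases b <;> simp [Pool.Agent.W957.MF.symm, sg_sg]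
  · refine ⟨a, s1' == s1, s2' == s2, ?_⟩
    funext b n
    cases b <;> simp [Pool.Agent.W957.MF.symm, sg_sg]

lemma symm_id (z : Conf) : symm true true true z = z := by
  funext b n
  cases b <;> simp [Pool.Agent.W957.MF.symm, sg]

lemma hasW1_of {a s1 s2 : Bool} {z : Conf} {S : Finset ℕ} {t : ℕ}
    (h : HasW1 (symm a s1 s2 z) S t) : HasW1 z S t := by
  obtain ⟨a', s1', s2', u, h1, h2⟩ := h
  obtain ⟨a'', s1'', s2'', e⟩ := symm_symm a' s1' s2' a s1 s2 z
  rw [e] at h2
  exact ⟨a'', s1'', s2'', u, h1, h2⟩

lemma hasW2_of {a s1 s2 : Bool} {z : Conf} {S : Finset ℕ} {t : ℕ}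
    (h : HasW2 (symm a s1 s2 z) S t) : HasW2 z S t := by
  obtain ⟨a', s1', s2', u, h1, h2⟩ := h
  obtain ⟨a'', s1'', s2'', e⟩ := symm_symm a' s1' s2' a s1 s2 z
  rw [e] at h2
  exact ⟨a'', s1'', s2'', u, h1, h2⟩

/-- the axis of the original configuration -/
lemma symm_axis (a s1 s2 : Bool) (z : Conf) (b : Bool) (n : ℕ) :
    symm a s1 s2 z b n = sg (if b then s1 else s2) (z (b == a) n) := by
  cases b <;> cases a <;> simp [Pool.Agent.W957.MF.symm]

lemma sg_inj (s : Bool) {x y : ℤ} (h : sg s x = sg s y) : x = y := by
  cases s
  · simpa [sg] using h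
  · simpa [sg] using h

lemma gp_symm {z : Conf} {S : Finset ℕ} (h : GP z S) (a s1 s2 : Bool) : GP (symm a s1 s2 z) S := by
  intro b i hi j hj e
  rw [symm_axis, symm_axis] at e
  exact h _ hi hj (sg_inj _ e)

lemma simple_symm {z : Conf} {S : Finset ℕ} (h : SimpleSet z S) (a s1 s2 : Bool) :
    SimpleSet (symm a s1 s2 z) S := by
  intro Y hY hc hne
  obtain ⟨w, hw, hwY, b, p, hp, q, hq, h1, h2⟩ := h Y hY hc hne
  refine ⟨w, hw, hwY, b == a, ?_⟩
  have e : ∀ n, symm a s1 s2 z (b == a) n = sg (if (b == a) = true then s1 else s2) (z b n) := by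
    intro n
    rw [symm_axis]
    have : ((b == a) == a) = b := by cases a <;> cases b <;> rfl
    rw [this]
  cases hs : (if (b == a) = true then s1 else s2)
  · refine ⟨q, hq, p, hp, ?_, ?_⟩
    · rw [e, e, hs]; simp only [sg]; omega
    · rw [e, e, hs]; simp only [sg]; omega
  · refine ⟨p, hp, q, hq, ?_, ?_⟩
    · rw [e, e, hs]; simp only [sg]; omega
    · rw [e, e, hs]; simp only [sg]; omega

lemma sl_sg (s s' : Bool) (x y : ℤ) : sl s (sg s' x) (sg s' y) ↔ sl (s == s') x y := by
  cases s <;> cases s' <;> simp [sl, sg]

lemma pinAt_of {a s1 s2 : Bool} {z : Conf} {c : ℕ → ℕ} {j : ℕ}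
    (h : PinAt (symm a s1 s2 z) c j) : PinAt z c j := by
  obtain ⟨b, s, s', h1, h2, h3⟩ := h
  have e1 : ∀ n, symm a s1 s2 z b n = sg (if b then s1 else s2) (z (b == a) n) :=
    fun n => symm_axis _ _ _ _ _ _
  have e2 : ∀ n, symm a s1 s2 z (!b) n = sg (if (!b) = true then s1 else s2) (z (!(b == a)) n) := by
    intro n
    rw [symm_axis]
    have : ((!b) == a) = !(b == a) := by cases a <;> cases b <;> rfl
    rw [this]
  refine ⟨b == a, s == (if b then s1 else s2), s' == (if (!b) = true then s1 else s2), ?_, ?_, ?_⟩
  · intro i hi hij
    have := h1 i hi hij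
    rw [e1, e1, sl_sg] at this
    exact this
  · intro i hi hij
    have := h2 i hi hij
    rw [e2, e2, sl_sg] at this
    exact this
  · rw [e2, e2, sl_sg] at h3
    exact h3

lemma hasPin_of {a s1 s2 : Bool} {z : Conf} {S : Finset ℕ} {k : ℕ}
    (h : HasPin (symm a s1 s2 z) S k) : HasPin z S k := by
  obtain ⟨c, h1, h2, h3⟩ := h
  exact ⟨c, h1, h2, fun j hj hjk => pinAt_of (h3 j hj hjk)⟩

/-! ### the tip -/

/-- the region `V i` -/
def Vr (z : Conf) (u : ℕ → ℕ) (i p : ℕ) : Prop :=
  z true (u (2 * i)) ≤ z true p ∧ z false (u (2 * i + 1)) ≤ z false p ∧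
    z false p ≤ z false (u (2 * i))

section tip

variable {z : Conf} {T : ℕ} {u : ℕ → ℕ}
  (hx : ∀ i j, i < j → j < 2 * T → z true (u i) < z true (u j))
  (he : ∀ i j, i < j → j < 2 * T → i % 2 = 0 → j % 2 = 0 → z false (u j) < z false (u i))
  (ho : ∀ i j, i < j → j < 2 * T → i % 2 = 1 → j % 2 = 1 → z false (u i) < z false (u j))
  (heo : ∀ i j, i < 2 * T → j < 2 * T → i % 2 = 0 → j % 2 = 1 → z false (u j) < z false (u i))

include hx he ho

lemma Vr_mono {i j p : ℕ} (hij : i ≤ j) (hj : j < T) (h : Vr z u j p) : Vr z u i p := by
  rcases Nat.lt_or_ge i j with h1 | h1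
  · have a1 := hx (2 * i) (2 * j) (by omega) (by omega)
    have a2 := he (2 * i) (2 * j) (by omega) (by omega) (by omega) (by omega)
    have a3 := ho (2 * i + 1) (2 * j + 1) (by omega) (by omega) (by omega) (by omega)
    obtain ⟨b1, b2, b3⟩ := h
    exact ⟨by omega, by omega, by omega⟩
  · have : i = j := by omega
    rw [this]; exact h

include heo

lemma step_exists {m t : ℕ} {c : ℕ → ℕ} (hm : 3 ≤ m) (hT : m * (t + 1) + 2 ≤ T)
    (c1 : c 1 = u (2 * (T - 1))) (c2 : c 2 = u (2 * (T - 1) + 1)) (cm : c m = u 0) :
    ∃ j e, 3 ≤ j ∧ j ≤ m ∧ e + t + 1 < T ∧ (∀ i, 1 ≤ i → i < j → Vr z u (e + t + 1) (c i)) ∧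
      ¬ Vr z u e (c j) := by
  by_contra hcon
  push Not at hcon
  have key : ∀ n, n + 2 ≤ m → ∀ e, e + n * (t + 1) + 1 = T → ∀ i, 1 ≤ i → i ≤ n + 2 →
      Vr z u e (c i) := by
    intro n
    induction n with
    | zero =>
      intro _ e hee i hi1 hi2
      have hT1 : e = T - 1 := by omega
      have a1 := hx (2 * (T - 1)) (2 * (T - 1) + 1) (by omega) (by omega)
      have a2 := heo (2 * (T - 1)) (2 * (T - 1) + 1) (by omega) (by omega) (by omega) (by omega)
      subst hT1
      have : i = 1 ∨ i = 2 := by omega
      rcases this with rfl | rfl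
      · rw [c1]
        exact ⟨le_rfl, a2.le, le_rfl⟩
      · rw [c2]
        exact ⟨a1.le, le_rfl, a2.le⟩
    | succ n ih =>
      intro hn e hee i hi1 hi2
      have e1 : (n + 1) * (t + 1) = n * (t + 1) + (t + 1) := by ring
      have h1 : e + t + 1 + n * (t + 1) + 1 = T := by rw [e1] at hee; omega
      have h2 := ih (by omega) (e + t + 1) h1
      have h3 : e + t + 1 < T := by omega
      rcases Nat.lt_or_ge i (n + 3) with h4 | h4
      · exact Vr_mono hx he ho (by omega) h3 (h2 i hi1 (by omega))
      · have : i = n + 3 := by omega
        subst this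
        exact hcon (n + 3) e (by omega) (by omega) h3 fun i h5 h6 => h2 i h5 (by omega)
  obtain ⟨r, hr⟩ : ∃ r, T = (r + 1) + (m - 2) * (t + 1) + 1 := by
    have h1 : (m - 2) * (t + 1) ≤ m * (t + 1) := Nat.mul_le_mul_right _ (Nat.sub_le _ _)
    exact ⟨T - 2 - (m - 2) * (t + 1), by omega⟩
  have h2 := (key (m - 2) (by omega) (r + 1) hr.symm m (by omega) (by omega)).1
  rw [cm] at h2
  have h3 := hx 0 (2 * (r + 1)) (by omega) (by omega)
  omega

end tip

lemma tip_main (h : S_CHAIN) (k t : ℕ) (z : Conf) (S : Finset ℕ) (hG : GP z S)
    (hS : SimpleSet z S) (hT : Tip z S ((max k 4) * (t + 1) + 2)) :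
    HasPin z S k ∨ HasW1 z S t ∨ HasW2 z S t := by
  set T : ℕ := (max k 4) * (t + 1) + 2 with hTd
  obtain ⟨u, hu, hx, he, ho, heo⟩ := hT
  have d1 := hx 0 (2 * (T - 1)) (by omega) (by omega)
  have d2 := hx 0 (2 * (T - 1) + 1) (by omega) (by omega)
  have d3 := hx (2 * (T - 1)) (2 * (T - 1) + 1) (by omega) (by omega)
  obtain ⟨m, c, hm, c1, c2, cm, cS, cne, ccut, cpin, cpin3⟩ := h z S (u (2 * (T - 1)))
    (u (2 * (T - 1) + 1)) (u 0) hG hS (hu _ (by omega)) (hu _ (by omega)) (hu _ (by omega))
    (fun e => by rw [e] at d3; exact lt_irrefl _ d3) (fun e => by rw [e] at d1; exact lt_irrefl _ d1)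
    (fun e => by rw [e] at d2; exact lt_irrefl _ d2)
  rcases Nat.lt_or_ge m (max k 4) with hmk | hmk
  swap
  · left
    have hk : k ≤ m := (le_max_left _ _).trans hmk
    have h4 : 4 ≤ m := (le_max_right _ _).trans hmk
    refine ⟨c, fun j h1 h2 => cS j h1 (by omega), fun i j h1 h2 h3 => cne i j h1 h2 (by omega),
      fun j h1 h2 => ?_⟩
    rcases Nat.lt_or_ge 3 j with h5 | h5
    · exact cpin j (by omega) (by omega)
    · have : j = 3 := by omega
      rw [this]
      exact cpin3 h4
  right
  have hTm : m * (t + 1) + 2 ≤ T := by
    have := Nat.mul_le_mul_right (t + 1) hmk.le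
    omega
  obtain ⟨j, e, hj3, hjm, heT, hV, hnV⟩ := step_exists hx he ho heo hm hTm c1 c2 cm
  obtain ⟨b, i, i', hi1, hij, hi1', hij', hl, hr⟩ := ccut j hj3 hjm
  obtain ⟨v1, v2, v3⟩ := hV i hi1 hij
  obtain ⟨w1, w2, w3⟩ := hV i' hi1' hij'
  cases b
  · -- the y-coordinate is cut
    left
    have hup : z false (c j) < z false (u (2 * (e + t + 1))) := by omega
    have hlo : z false (u (2 * (e + t + 1) + 1)) < z false (c j) := by omega
    have hA : z false (u (2 * (e + t + 1))) < z false (u (2 * e)) :=
      he _ _ (by omega) (by omega) (by omega) (by omega)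
    have hB : z false (u (2 * e + 1)) < z false (u (2 * (e + t + 1) + 1)) :=
      ho _ _ (by omega) (by omega) (by omega) (by omega)
    have hx0 : z true (c j) < z true (u (2 * e)) := by
      by_contra hc
      exact hnV ⟨by omega, by omega, by omega⟩
    refine ⟨true, true, true, fun i => if i = 0 then c j else u (2 * e + (i - 1)), ?_, ?_⟩
    · intro i hi
      by_cases h0 : i = 0
      · simp only [h0, if_true]
        exact cS j (by omega) hjm
      · simp only [h0, if_false]
        exact hu _ (by omega)
    · rw [symm_id]
      refine ⟨?_, ?_, ?_, ?_, ?_⟩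
      · intro a b hab hb
        unfold pull
        simp only [show b ≠ 0 by omega, if_false]
        by_cases ha : a = 0
        · simp only [ha, if_true]
          rcases Nat.eq_or_lt_of_le (show 1 ≤ b by omega) with h1 | h1
          · rw [← h1]
            simpa using hx0
          · exact hx0.trans (hx _ _ (by omega) (by omega))
        · simp only [ha, if_false]
          exact hx _ _ (by omega) (by omega)
      · intro a b ha hab hb h1 h2
        unfold pull
        simp only [show a ≠ 0 by omega, show b ≠ 0 by omega, if_false]
        exact he _ _ (by omega) (by omega) (by omega) (by omega)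
      · intro a b ha hab hb h1 h2
        unfold pull
        simp only [show a ≠ 0 by omega, show b ≠ 0 by omega, if_false]
        exact ho _ _ (by omega) (by omega) (by omega) (by omega)
      · intro a ha hb h1
        unfold pull
        simp only [show a ≠ 0 by omega, if_false, if_true]
        exact hup.trans (he _ _ (by omega) (by omega) (by omega) (by omega))
      · intro a ha hb h1
        unfold pull
        simp only [show a ≠ 0 by omega, if_false, if_true]
        exact lt_trans (ho _ _ (by omega) (by omega) (by omega) (by omega)) hlo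
  · -- the x-coordinate is cut
    right
    have hxj : z true (u (2 * (e + t + 1))) < z true (c j) := by omega
    have hxe : z true (u (2 * e)) < z true (u (2 * (e + t + 1))) := hx _ _ (by omega) (by omega)
    have hA : z false (u (2 * (e + t + 1))) < z false (u (2 * e)) :=
      he _ _ (by omega) (by omega) (by omega) (by omega)
    have hB : z false (u (2 * e + 1)) < z false (u (2 * (e + t + 1) + 1)) :=
      ho _ _ (by omega) (by omega) (by omega) (by omega)
    have hcase : z false (u (2 * e)) < z false (c j) ∨ z false (c j) < z false (u (2 * e + 1)) := by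
      by_contra hc
      push Not at hc
      exact hnV ⟨by omega, hc.2, hc.1⟩
    rcases hcase with hc | hc
    · -- above
      refine ⟨true, true, true, fun i => if i = 2 * t + 1 then c j else if i = 2 * t + 2 then c i'
        else u (2 * e + (i - 1)), ?_, ?_⟩
      · intro i hi
        by_cases h0 : i = 2 * t + 1
        · simp only [h0, if_true]
          exact cS j (by omega) hjm
        · by_cases h1 : i = 2 * t + 2
          · simp only [h0, h1, if_false, if_true]
            simp only [show (2 * t + 2 = 2 * t + 1) = False by simp, if_false]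
            exact cS i' hi1' (by omega)
          · simp only [h0, h1, if_false]
            exact hu _ (by omega)
      · rw [symm_id]
        have f1 : ∀ a, a ≤ 2 * t → (if a = 2 * t + 1 then c j else if a = 2 * t + 2 then c i'
            else u (2 * e + (a - 1))) = u (2 * e + (a - 1)) := by
          intro a ha
          rw [if_neg (by omega), if_neg (by omega)]
        have f2 : (if 2 * t + 1 = 2 * t + 1 then c j else if 2 * t + 1 = 2 * t + 2 then c i'
            else u (2 * e + (2 * t + 1 - 1))) = c j := if_pos rfl
        have f3 : (if 2 * t + 2 = 2 * t + 1 then c j else if 2 * t + 2 = 2 * t + 2 then c i'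
            else u (2 * e + (2 * t + 2 - 1))) = c i' := by
          rw [if_neg (by omega), if_pos rfl]
        refine ⟨?_, ?_, ?_, ?_, ?_, ?_⟩
        · intro a b ha hab hb
          unfold pull
          beta_reduce
          rcases Nat.lt_or_ge (2 * t) b with h1 | h1
          · rcases Nat.lt_or_ge (2 * t) a with h2 | h2
            · have e1 : a = 2 * t + 1 := by omega
              have e2 : b = 2 * t + 2 := by omega
              subst e1
              subst e2
              rw [f2, f3]
              exact hr
            · rw [f1 a h2]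
              have h3 : z true (u (2 * e + (a - 1))) < z true (c j) :=
                lt_trans (hx _ _ (by omega) (by omega)) hxj
              have : b = 2 * t + 1 ∨ b = 2 * t + 2 := by omega
              rcases this with e1 | e1
              · subst e1
                rw [f2]
                exact h3
              · subst e1
                rw [f3]
                exact h3.trans hr
          · rw [f1 a (by omega), f1 b h1]
            exact hx _ _ (by omega) (by omega)
        · intro a b ha hab hb h1 h2
          unfold pull
          beta_reduce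
          rw [f1 a (by omega), f1 b hb]
          exact he _ _ (by omega) (by omega) (by omega) (by omega)
        · intro a b ha hab hb h1 h2
          unfold pull
          beta_reduce
          rw [f1 a (by omega), f1 b hb]
          exact ho _ _ (by omega) (by omega) (by omega) (by omega)
        · intro a ha hb h1
          unfold pull
          beta_reduce
          rw [f1 a hb, f3]
          exact lt_of_le_of_lt w3 (he _ _ (by omega) (by omega) (by omega) (by omega))
        · intro a ha hb h1
          unfold pull
          beta_reduce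
          rw [f1 a hb, f3]
          exact lt_of_lt_of_le (ho _ _ (by omega) (by omega) (by omega) (by omega)) w2
        · intro a ha hb hne
          unfold pull
          beta_reduce
          rw [f2]
          rcases Nat.lt_or_ge (2 * t) a with h2 | h2
          · have e1 : a = 2 * t + 2 := by omega
            subst e1
            rw [f3]
            omega
          · rw [f1 a h2]
            refine lt_of_le_of_lt ?_ hc
            rcases Nat.mod_two_eq_zero_or_one a with h3 | h3
            · exact (heo _ _ (by omega) (by omega) (by omega) (by omega)).le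
            · rcases Nat.eq_or_lt_of_le ha with h4 | h4
              · rw [← h4]; simp
              · exact (he _ _ (by omega) (by omega) (by omega) (by omega)).le
    · -- below
      refine ⟨true, true, false, fun i => if i = 2 * t + 1 then c j else if i = 2 * t + 2 then c i'
        else u (2 * e + i), ?_, ?_⟩
      · intro i hi
        by_cases h0 : i = 2 * t + 1
        · simp only [h0, if_true]
          exact cS j (by omega) hjm
        · by_cases h1 : i = 2 * t + 2
          · simp only [h0, h1, if_false, if_true]
            simp only [show (2 * t + 2 = 2 * t + 1) = False by simp, if_false]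
            exact cS i' hi1' (by omega)
          · simp only [h0, h1, if_false]
            exact hu _ (by omega)
      · have gx : ∀ (v : ℕ → ℕ) n, pull (symm true true false z) v true n = z true (v n) := by
          intro v n; simp [pull, Pool.Agent.W957.MF.symm, sg]
        have gy : ∀ (v : ℕ → ℕ) n, pull (symm true true false z) v false n = - z false (v n) := by
          intro v n; simp [pull, Pool.Agent.W957.MF.symm, sg]
        have f1 : ∀ a, a ≤ 2 * t → (if a = 2 * t + 1 then c j else if a = 2 * t + 2 then c i'
            else u (2 * e + a)) = u (2 * e + a) := by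
          intro a ha
          rw [if_neg (by omega), if_neg (by omega)]
        have f2 : (if 2 * t + 1 = 2 * t + 1 then c j else if 2 * t + 1 = 2 * t + 2 then c i'
            else u (2 * e + (2 * t + 1))) = c j := if_pos rfl
        have f3 : (if 2 * t + 2 = 2 * t + 1 then c j else if 2 * t + 2 = 2 * t + 2 then c i'
            else u (2 * e + (2 * t + 2))) = c i' := by
          rw [if_neg (by omega), if_pos rfl]
        refine ⟨?_, ?_, ?_, ?_, ?_, ?_⟩
        · intro a b ha hab hb
          rw [gx, gx]
          rcases Nat.lt_or_ge (2 * t) b with h1 | h1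
          · rcases Nat.lt_or_ge (2 * t) a with h2 | h2
            · have e1 : a = 2 * t + 1 := by omega
              have e2 : b = 2 * t + 2 := by omega
              subst e1
              subst e2
              rw [f2, f3]
              exact hr
            · rw [f1 a h2]
              have h3 : z true (u (2 * e + a)) < z true (c j) :=
                lt_trans (hx _ _ (by omega) (by omega)) hxj
              have : b = 2 * t + 1 ∨ b = 2 * t + 2 := by omega
              rcases this with e1 | e1
              · subst e1
                rw [f2]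
                exact h3
              · subst e1
                rw [f3]
                exact h3.trans hr
          · rw [f1 a (by omega), f1 b h1]
            exact hx _ _ (by omega) (by omega)
        · intro a b ha hab hb h1 h2
          rw [gy, gy, f1 a (by omega), f1 b hb]
          exact neg_lt_neg (ho _ _ (by omega) (by omega) (by omega) (by omega))
        · intro a b ha hab hb h1 h2
          rw [gy, gy, f1 a (by omega), f1 b hb]
          exact neg_lt_neg (he _ _ (by omega) (by omega) (by omega) (by omega))
        · intro a ha hb h1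
          rw [gy, gy, f1 a hb, f3]
          exact neg_lt_neg
            (lt_of_lt_of_le (ho _ _ (by omega) (by omega) (by omega) (by omega)) w2)
        · intro a ha hb h1
          rw [gy, gy, f1 a hb, f3]
          exact neg_lt_neg
            (lt_of_le_of_lt w3 (he _ _ (by omega) (by omega) (by omega) (by omega)))
        · intro a ha hb hne
          rw [gy, gy, f2]
          apply neg_lt_neg
          rcases Nat.lt_or_ge (2 * t) a with h2 | h2
          · have e1 : a = 2 * t + 2 := by omega
            subst e1
            rw [f3]
            omega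
          · rw [f1 a h2]
            refine lt_of_lt_of_le hc ?_
            rcases Nat.mod_two_eq_zero_or_one a with h3 | h3
            · exact (heo _ _ (by omega) (by omega) (by omega) (by omega)).le
            · rcases Nat.eq_or_lt_of_le ha with h4 | h4
              · rw [← h4]
              · exact (ho _ _ (by omega) (by omega) (by omega) (by omega)).le

theorem t_TIP (h : S_CHAIN) : S_TIP := by
  intro k t
  refine ⟨(max k 4) * (t + 1) + 2, fun z S hG hS a s1 s2 hT => ?_⟩
  rcases tip_main h k t (symm a s1 s2 z) S (gp_symm hG a s1 s2) (simple_symm hS a s1 s2) hT with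
    h1 | h1 | h1
  · exact Or.inl (hasPin_of h1)
  · exact Or.inr (Or.inl (hasW1_of h1))
  · exact Or.inr (Or.inr (hasW2_of h1))

end Pool.Agent.W397.MF
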